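import Pool.Agent.W528.HF.Stm
import Pool.Agent.W125.HC.PC

/-!
# The point count with two Kummer directions
-/

set_option autoImplicit false

namespace Pool.Agent.W318.HF.PB

open Finset Pool.Agent.W528.HA Pool.Agent.W528.HC Pool.Agent.W528.HF Pool.Agent.W125.HC.PC

section

variable {L : Type} [Field L] [Fintype L]

theorem fib {E : Type} [Field E] (n : ℕ) (g : L → E) :
    ∑ x : L, g x * ((Set.ncard {y : L | y ^ n = x} : ℕ) : E) = ∑ y : L, g (y ^ n) := by
  classical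
  have e5 : ∀ t : L, g t * ((Set.ncard {u : L | u ^ n = t} : ℕ) : E) =
      ∑ u : L, g t * (if u ^ n = t then 1 else 0) := by
    intro t
    rw [ncard_eq (fun u : L => u ^ n = t), mul_sum]
  rw [sum_congr rfl fun t _ => e5 t, sum_comm]
  refine sum_congr rfl fun u _ => ?_
  rw [sum_eq_single_of_mem (u ^ n) (mem_univ _)]
  · rw [if_pos rfl, mul_one]
  · intro t _ ht
    rw [if_neg (fun h => ht h.symm), mul_zero]

theorem fib2 {E : Type} [Field E] (e r : ℕ) (h : L → L → E) :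
    ∑ x : L, ∑ t : L, h x t * ((Set.ncard {y : L | y ^ e = x} : ℕ) : E) *
      ((Set.ncard {y : L | y ^ r = t} : ℕ) : E) = ∑ y : L, ∑ u : L, h (y ^ e) (u ^ r) := by
  have h1 : ∀ x : L, ∑ t : L, h x t * ((Set.ncard {y : L | y ^ e = x} : ℕ) : E) *
      ((Set.ncard {y : L | y ^ r = t} : ℕ) : E) =
      (∑ u : L, h x (u ^ r)) * ((Set.ncard {y : L | y ^ e = x} : ℕ) : E) := by
    intro x
    rw [← fib r (fun t => h x t), sum_mul]
    refine sum_congr rfl fun t _ => ?_
    ring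
  rw [sum_congr rfl fun x _ => h1 x]
  exact fib e (fun x => ∑ u : L, h x (u ^ r))

theorem plane_eq {p e r m : ℕ} (α β γ : Fin m → L) (a : Fin m → ℕ) {E : Type} [Field E] :
    ((planePoints L p e r α β γ a : ℕ) : E) =
      ∑ x : L, ∑ u : L, ((Set.ncard {y : L | y ^ p =
        ∏ i, (α i * x ^ e + β i * u ^ r + γ i) ^ a i} : ℕ) : E) := by
  classical
  unfold planePoints
  have h : {v : L × L × L | v.2.2 ^ p = ∏ i, (α i * v.1 ^ e + β i * v.2.1 ^ r + γ i) ^ a i} =
      ((univ.filter (fun v : L × L × L =>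
        v.2.2 ^ p = ∏ i, (α i * v.1 ^ e + β i * v.2.1 ^ r + γ i) ^ a i) : Finset (L × L × L)) :
        Set (L × L × L)) := by
    ext y; simp
  rw [h, Set.ncard_coe_finset, card_filter, Fintype.sum_prod_type]
  push_cast
  refine sum_congr rfl fun x _ => ?_
  rw [Fintype.sum_prod_type]
  refine sum_congr rfl fun u _ => ?_
  rw [ncard_eq]

theorem swap5 {E : Type} [Field E] (J S T : Finset ℕ) (A : L → L → ℕ → E) (B C : L → ℕ → E) :
    ∑ j ∈ J, ∑ s ∈ S, ∑ s' ∈ T, ∑ x : L, ∑ t : L, A x t j * B x s * C t s' =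
      ∑ x : L, ∑ t : L, (∑ j ∈ J, A x t j) * (∑ s ∈ S, B x s) * ∑ s' ∈ T, C t s' := by
  have h1 : ∑ j ∈ J, ∑ s ∈ S, ∑ s' ∈ T, ∑ x : L, ∑ t : L, A x t j * B x s * C t s' =
      ∑ q ∈ J ×ˢ (S ×ˢ T), ∑ v : L × L, A v.1 v.2 q.1 * B v.1 q.2.1 * C v.2 q.2.2 := by
    rw [sum_product]
    refine sum_congr rfl fun j _ => ?_
    rw [sum_product]
    refine sum_congr rfl fun s _ => sum_congr rfl fun s' _ => ?_
    rw [Fintype.sum_prod_type]
  rw [h1, sum_comm, Fintype.sum_prod_type]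
  refine sum_congr rfl fun x _ => sum_congr rfl fun t _ => ?_
  rw [sum_product, sum_mul_sum, sum_mul]
  refine sum_congr rfl fun j _ => ?_
  rw [sum_product, sum_mul]
  refine sum_congr rfl fun s _ => ?_
  rw [mul_sum]

end

theorem main : Pool.Agent.W528.HC.PR → Pool.Agent.W528.HC.MU → Pool.Agent.W528.HF.PB := by
  intro hPR hMU L _ _ p e r z hp he hr hz E _ _ μ hμ m α β γ a ha
  classical
  have her : 0 < e * r := Nat.mul_pos he hr
  have hNa : p * e * r = p * (e * r) := mul_assoc p e r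
  have hN : 0 < p * e * r := by
    rw [hNa]
    exact Nat.mul_pos hp.pos her
  have hN2 : 2 ≤ p * e * r := by
    calc 2 ≤ p := hp.two_le
      _ = p * 1 := (mul_one p).symm
      _ ≤ p * (e * r) := Nat.mul_le_mul_left p her
      _ = p * e * r := hNa.symm
  have hmu := hMU L (p * e * r) z hN2 hz E μ hμ.pow_eq_one
  obtain ⟨F, hF⟩ : ∃ F : L → L → L, F = fun x t => ∏ i, (α i * x + β i * t + γ i) ^ a i := ⟨_, rfl⟩
  obtain ⟨W, hW⟩ : ∃ W : L → E, ∀ v, W v =
      kv (p * e * r) z μ (v ^ ((Fintype.card L - 1) / (p * e * r))) := ⟨_, fun _ => rfl⟩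
  have hWm : ∀ v w : L, W (v * w) = W v * W w := by
    intro v w
    rw [hW, hW, hW]
    exact hmu v w
  have hz' : IsPrimitiveRoot z (p * (e * r)) := hNa ▸ hz
  have h1 : ∀ j ∈ Ico 1 p, ∀ s₁ s₂ : ℕ, ∀ x t : L,
      W ((∏ i, (α i * x + β i * t + γ i) ^ (e * r * (j * a i % p))) * x ^ (p * r * s₁)
        * t ^ (p * e * s₂)) =
      W (F x t ^ (e * r * j)) * W (x ^ (p * r * s₁)) * W (t ^ (p * e * s₂)) := by
    intro j hj s₁ s₂ x t
    rw [mem_Ico] at hj
    rw [hWm, hWm]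
    congr 2
    rw [hW, hW, hF]
    congr 1
    simp only
    rw [← prod_pow, ← prod_pow, ← prod_pow]
    refine prod_congr rfl fun i _ => ?_
    have hnd : ¬ p ∣ j * a i := by
      intro hd
      rcases (Nat.Prime.dvd_mul hp).1 hd with h | h
      · have := Nat.le_of_dvd (by omega) h
        omega
      · have := Nat.le_of_dvd (ha i).1 h
        have := (ha i).2
        omega
    have h4 := pow_mod hp.pos her hz' hnd (α i * x + β i * t + γ i)
    rw [← hNa] at h4
    rw [h4, ← pow_mul (α i * x + β i * t + γ i) (a i)]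
    congr 2
    ring
  have h2 : ∀ v : L, ∑ j ∈ Ico 1 p, W (v ^ (e * r * j)) =
      ((Set.ncard {y : L | y ^ p = v} : ℕ) : E) - 1 := by
    intro v
    have := hPR L (p * e * r) p (e * r) z hNa hz hp.pos her E μ hμ v
    rw [this]
    simp only [hW]
    ring
  have h3 : ∀ v : L, ∑ s ∈ range e, W (v ^ (p * r * s)) =
      ((Set.ncard {y : L | y ^ e = v} : ℕ) : E) := by
    intro v
    have := hPR L (p * e * r) e (p * r) z (by ring) hz he (Nat.mul_pos hp.pos hr) E μ hμ v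
    rw [this, range_eq_Ico, sum_eq_sum_Ico_succ_bot he]
    simp only [hW]
    congr 1
    rw [mul_zero, pow_zero, one_pow, kv_one hN hz]
  have h3' : ∀ v : L, ∑ s ∈ range r, W (v ^ (p * e * s)) =
      ((Set.ncard {y : L | y ^ r = v} : ℕ) : E) := by
    intro v
    have := hPR L (p * e * r) r (p * e) z (by ring) hz hr (Nat.mul_pos hp.pos he) E μ hμ v
    rw [this, range_eq_Ico, sum_eq_sum_Ico_succ_bot hr]
    simp only [hW]
    congr 1
    rw [mul_zero, pow_zero, one_pow, kv_one hN hz]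
  have e1 : ∑ j ∈ Ico 1 p, ∑ s₁ ∈ range e, ∑ s₂ ∈ range r,
      planeSum L E p e r α β γ a z μ j s₁ s₂ =
      ∑ j ∈ Ico 1 p, ∑ s₁ ∈ range e, ∑ s₂ ∈ range r, ∑ x : L, ∑ t : L,
        W (F x t ^ (e * r * j)) * W (x ^ (p * r * s₁)) * W (t ^ (p * e * s₂)) := by
    refine sum_congr rfl fun j hj => sum_congr rfl fun s₁ _ => sum_congr rfl fun s₂ _ => ?_
    unfold planeSum
    refine sum_congr rfl fun x _ => sum_congr rfl fun t _ => ?_
    rw [← h1 j hj s₁ s₂ x t, hW]
  rw [e1]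
  have e2 := swap5 (L := L) (Ico 1 p) (range e) (range r) (fun x t j => W (F x t ^ (e * r * j)))
    (fun x s => W (x ^ (p * r * s))) (fun t s => W (t ^ (p * e * s)))
  refine e2.trans ?_
  have e3 : ∑ x : L, ∑ t : L, (∑ j ∈ Ico 1 p, W (F x t ^ (e * r * j))) *
      (∑ s ∈ range e, W (x ^ (p * r * s))) * ∑ s ∈ range r, W (t ^ (p * e * s)) =
      ∑ x : L, ∑ t : L, (((Set.ncard {y : L | y ^ p = F x t} : ℕ) : E) - 1) *
        ((Set.ncard {y : L | y ^ e = x} : ℕ) : E) * ((Set.ncard {y : L | y ^ r = t} : ℕ) : E) :=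
    sum_congr rfl fun x _ => sum_congr rfl fun t _ => by rw [h2, h3, h3']
  refine e3.trans ?_
  refine (fib2 e r (fun x t => ((Set.ncard {y : L | y ^ p = F x t} : ℕ) : E) - 1)).trans ?_
  rw [plane_eq]
  simp only [sum_sub_distrib, sum_const, card_univ, nsmul_eq_mul, mul_one, hF]
  ring

end Pool.Agent.W318.HF.PB
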